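import Pool.Agent.X185.KS.Delayed

/-!
# MP_ff2559_lc: the delayed k-server problem is (2k - 1)-competitive in every metric space

For every `k ≥ 2` (in particular for every `k ≥ 3`, the range of the question), every metric
space `M` and every initial state there is a deterministic online algorithm for the delayed
`k`-server problem that is `(2 k - 1)`-competitive.  So `C_{M,k}^{del} ≤ 2 k - 1` for every
metric space, and Q1 has the answer yes with `C_k = 2 k - 1`.

The algorithm runs the work function algorithm of the ordinary `k`-server problem on a longer
request sequence: the request `r^t` is replaced by `r^t, r^(t-1), r^t, r^(t-1), ...`, continued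
until both points are covered.
-/

set_option autoImplicit false

universe u

namespace Pool.Agent.Results.MP_ff2559_lc.Competitive

open Pool.Agent.X185.KS

theorem result (k : ℕ) (hk : 2 ≤ k) (M : Type u) [MetricSpace M] (x₀ : State M k) :
    Competitive (2 * (k : ℝ) - 1) x₀ :=
  main hk x₀

end Pool.Agent.Results.MP_ff2559_lc.Competitive
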